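import Pool.Agent.H25.NM.Chain

/-!
A monotone property of families of graphs which holds for many families of planted graphs.
-/

namespace Pool.Agent.H27.CN

open Finset
open Pool.Agent.H25.NM

section

variable {B : ℕ} {Z G : Type} [Fintype Z] [PartialOrder G]

/-- The family with the planted graphs `pl (t b')` for `b' < b` and the graph `K` otherwise. -/
def hyb (pl : Z → G) (K : G) (t : Fin B → Z) (b : ℕ) : Fin B → G :=
  fun b' => if b'.1 < b then pl (t b') else K

theorem nc_const (p : Prop) [Decidable p] : nc (fun _ : Z => p) = if p then Fintype.card Z else 0 := by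
  by_cases h : p
  · rw [if_pos h]
    exact nc_true fun _ => h
  · rw [if_neg h]
    exact nc_false fun _ => h

/-- **Averaging.** If `g` holds for more than the fraction `2 ^ (-B)` of the families of planted
graphs then in some context it holds for more than half of the planted graphs in some block. -/
theorem exists_block (pl : Z → G) (K : G) (hK : ∀ z, pl z ≤ K)
    (g : (Fin B → G) → Prop) (hg : ∀ X Y : Fin B → G, (∀ b, X b ≤ Y b) → g X → g Y)
    (h : Fintype.card (Fin B → Z) < 2 ^ B * nc (fun t : Fin B → Z => g fun b => pl (t b))) :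
    ∃ (b : Fin B) (t : Fin B → Z),
      Fintype.card Z < 2 * nc (fun z => g (Function.update (hyb pl K t b.1) b (pl z))) := by
  classical
  let a : ℕ → ℕ := fun b => nc fun t : Fin B → Z => g (hyb pl K t b)
  have hB : a B = nc (fun t : Fin B → Z => g fun b => pl (t b)) := by
    refine nc_congr fun t => ?_
    have : hyb pl K t B = fun b => pl (t b) := by
      funext b
      exact if_pos b.2
    rw [this]
  obtain ⟨b, hb, hab⟩ : ∃ b < B, a b < 2 * a (b + 1) := by
    by_contra hcon
    push Not at hcon
    have h1 : ∀ b ≤ B, 2 ^ b * a b ≤ a 0 := by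
      intro b
      induction b with
      | zero =>
        intro _
        rw [pow_zero, one_mul]
      | succ b ih =>
        intro hb
        calc 2 ^ (b + 1) * a (b + 1) = 2 ^ b * (2 * a (b + 1)) := by ring
          _ ≤ 2 ^ b * a b := Nat.mul_le_mul_left _ (hcon b (by omega))
          _ ≤ a 0 := ih (by omega)
    have h2 := h1 B le_rfl
    rw [hB] at h2
    exact absurd (h2.trans (nc_le_card _)) (not_le.2 h)
  have h1 := nc_update (⟨b, hb⟩ : Fin B) fun t : Fin B → Z => g (hyb pl K t b)
  have h2 := nc_update (⟨b, hb⟩ : Fin B) fun t : Fin B → Z => g (hyb pl K t (b + 1))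
  have e1 : ∀ (t : Fin B → Z) (z : Z), hyb pl K (Function.update t ⟨b, hb⟩ z) b = hyb pl K t b := by
    intro t z
    funext b'
    unfold hyb
    by_cases hb' : b'.1 < b
    · rw [if_pos hb', if_pos hb', Function.update_of_ne]
      rintro rfl
      exact lt_irrefl _ hb'
    · rw [if_neg hb', if_neg hb']
  have e2 : ∀ (t : Fin B → Z) (z : Z), hyb pl K (Function.update t ⟨b, hb⟩ z) (b + 1) =
      Function.update (hyb pl K t b) ⟨b, hb⟩ (pl z) := by
    intro t z
    funext b'
    by_cases hbb : b' = ⟨b, hb⟩
    · subst hbb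
      rw [Function.update_self]
      unfold hyb
      rw [if_pos (Nat.lt_succ_self b), Function.update_self]
    · rw [Function.update_of_ne hbb]
      unfold hyb
      have hne : b'.1 ≠ b := fun h' => hbb (Fin.ext h')
      by_cases hb' : b'.1 < b
      · rw [if_pos hb', if_pos (by omega), Function.update_of_ne hbb]
      · rw [if_neg hb', if_neg (by omega)]
  simp only [e1] at h1
  simp only [e2] at h2
  have hZ : 0 < Fintype.card Z := by
    by_contra h0
    have hZ0 : Fintype.card Z = 0 := by omega
    have : IsEmpty Z := Fintype.card_eq_zero_iff.1 hZ0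
    have h3 : a (b + 1) = 0 := nc_false fun t => (this.false (t ⟨b, hb⟩)).elim
    omega
  obtain ⟨t, _, ht⟩ : ∃ t ∈ (univ : Finset (Fin B → Z)),
      nc (fun _ : Z => g (hyb pl K t b)) <
        2 * nc (fun z => g (Function.update (hyb pl K t b) ⟨b, hb⟩ (pl z))) := by
    by_contra hcon
    push Not at hcon
    have h3 := Finset.sum_le_sum hcon
    rw [← Finset.mul_sum, ← h1, ← h2] at h3
    have h4 : Fintype.card Z * (2 * a (b + 1)) ≤ Fintype.card Z * a b := by
      calc Fintype.card Z * (2 * a (b + 1)) = 2 * (Fintype.card Z * a (b + 1)) := by ring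
        _ ≤ _ := h3
    exact absurd (Nat.le_of_mul_le_mul_left h4 hZ) (not_le.2 hab)
  refine ⟨⟨b, hb⟩, t, ?_⟩
  have hpos : 0 < nc (fun z => g (Function.update (hyb pl K t b) ⟨b, hb⟩ (pl z))) := by omega
  obtain ⟨z, hz⟩ := nc_pos.1 hpos
  have hgt : g (hyb pl K t b) := by
    refine hg _ _ (fun b' => ?_) hz
    by_cases hbb : b' = ⟨b, hb⟩
    · subst hbb
      rw [Function.update_self]
      unfold hyb
      rw [if_neg (lt_irrefl _)]
      exact hK z
    · rw [Function.update_of_ne hbb]
  rwa [nc_const, if_pos hgt] at ht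

end

end Pool.Agent.H27.CN
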