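import Pool.Agent.H25.NM.Chain

/-!
Monotone functions which accept many planted cliques in many blocks seldom reject the union of
random graphs.
-/

namespace Pool.Agent.H27.CN

open Finset
open Pool.Agent.H25.NM

set_option linter.unusedSectionVars false

theorem nc_pi {J : ℕ} {Ω : Type} [Fintype Ω] (p : Fin J → Ω → Prop) :
    nc (fun ω : Fin J → Ω => ∀ i, p i (ω i)) = ∏ i, nc (p i) := by
  classical
  have h1 : (univ.filter fun ω : Fin J → Ω => ∀ i, p i (ω i)) =
      Fintype.piFinset fun i => univ.filter (p i) := by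
    ext ω
    simp [Fintype.mem_piFinset]
  rw [nc_eq, h1, Fintype.card_piFinset]
  exact Finset.prod_congr rfl fun i _ => (nc_eq _).symm

section

variable {V Ω P : Type} [Fintype V] [Fintype Ω] [Fintype P] {n J : ℕ}
variable {φ : Fin J → V ↪ Fin n} {R : Ω → SimpleGraph V} {A : P → Finset V}

/-- One block. -/
theorem line_le {s : ℕ} {ε : ℝ} (hε : 64 * ε ≤ 1)
    (BL : ∀ F : SimpleGraph V → Prop, MonoSize s F →
      (nc (fun x : P × Ω => F (cq (A x.1)) ∧ ¬ F (R x.2)) : ℝ) ≤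
        Fintype.card P * nc (fun ω => F (R ω)) + ε * (Fintype.card P * Fintype.card Ω))
    {F : SimpleGraph (Fin n) → Prop} (hF : MonoSize s F) (ψ : V ↪ Fin n) [Nonempty P]
    (hP : Fintype.card P ≤ 4 * nc (fun p => F ((cq (A p)).map ψ))) :
    16 * nc (fun ω => ¬ F ((R ω).map ψ)) ≤ 13 * Fintype.card Ω := by
  have h0 : MonoSize s fun x : SimpleGraph V => F (x.map ψ) := by
    have h := hF.restrict ψ ⊥
    simpa only [bot_sup_eq] using h
  have h1 := BL _ h0
  rw [nc_prod_and (fun p => F ((cq (A p)).map ψ)) fun ω => ¬ F ((R ω).map ψ)] at h1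
  have h2 := nc_add_nc_not fun ω => F ((R ω).map ψ)
  have hP0 : (0 : ℝ) < Fintype.card P := by exact_mod_cast Fintype.card_pos
  have hPR : (Fintype.card P : ℝ) ≤ 4 * nc (fun p => F ((cq (A p)).map ψ)) := by
    exact_mod_cast hP
  have h2R : (nc (fun ω => F ((R ω).map ψ)) : ℝ) + nc (fun ω => ¬ F ((R ω).map ψ)) =
      Fintype.card Ω := by exact_mod_cast h2
  set ν : ℝ := ((nc (fun ω => ¬ F ((R ω).map ψ)) : ℕ) : ℝ) with hν
  set μ : ℝ := ((nc (fun ω => F ((R ω).map ψ)) : ℕ) : ℝ) with hμ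
  set d : ℝ := ((nc (fun p => F ((cq (A p)).map ψ)) : ℕ) : ℝ) with hd
  have hν0 : 0 ≤ ν := Nat.cast_nonneg _
  have hΩ0 : (0 : ℝ) ≤ Fintype.card Ω := Nat.cast_nonneg _
  push_cast at h1
  have h3 : (Fintype.card P : ℝ) * ν ≤ 4 * (d * ν) := by
    have := mul_le_mul_of_nonneg_right hPR hν0
    linarith
  have h4 : (Fintype.card P : ℝ) * ν ≤
      4 * (Fintype.card P * μ + ε * (Fintype.card P * Fintype.card Ω)) := by linarith
  have h5 : ν ≤ 4 * (μ + ε * Fintype.card Ω) := by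
    have h6 : (Fintype.card P : ℝ) * ν ≤
        Fintype.card P * (4 * (μ + ε * Fintype.card Ω)) := by
      refine h4.trans (le_of_eq ?_)
      ring
    exact le_of_mul_le_mul_left h6 hP0
  have h6 : 64 * (ε * Fintype.card Ω) ≤ Fintype.card Ω := by
    have := mul_le_mul_of_nonneg_right hε hΩ0
    linarith
  have h7 : (16 : ℝ) * ν ≤ 13 * Fintype.card Ω := by linarith
  rw [hν] at h7
  exact_mod_cast h7

/-- All blocks. -/
theorem lines_le {s : ℕ} {ε : ℝ} (hε : 64 * ε ≤ 1)
    (BL : ∀ F : SimpleGraph V → Prop, MonoSize s F →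
      (nc (fun x : P × Ω => F (cq (A x.1)) ∧ ¬ F (R x.2)) : ℝ) ≤
        Fintype.card P * nc (fun ω => F (R ω)) + ε * (Fintype.card P * Fintype.card Ω))
    {F : SimpleGraph (Fin n) → Prop} (hF : MonoSize s F) [Nonempty P] (I : Finset (Fin J))
    (hI : ∀ i ∈ I, Fintype.card P ≤ 4 * nc (fun p => F ((cq (A p)).map (φ i)))) :
    16 ^ I.card * nc (fun ω : Fin J → Ω => ¬ F (pre φ R ω J)) ≤
      13 ^ I.card * Fintype.card Ω ^ J := by
  classical
  have h1 : nc (fun ω : Fin J → Ω => ¬ F (pre φ R ω J)) ≤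
      ∏ i, nc (fun y : Ω => ¬ F ((R y).map (φ i))) := by
    rw [← nc_pi fun (i : Fin J) (y : Ω) => ¬ F ((R y).map (φ i))]
    refine nc_mono fun ω hω i hi => hω (hF.mono ?_ hi)
    intro x y hxy
    exact ⟨i, i.2, hxy⟩
  have h2 : ∏ i : Fin J, (if i ∈ I then 16 else 1) = 16 ^ I.card := by
    rw [Finset.prod_ite_mem, Finset.univ_inter, Finset.prod_const]
  have h3 : ∏ i : Fin J, (if i ∈ I then 13 else 1) = 13 ^ I.card := by
    rw [Finset.prod_ite_mem, Finset.univ_inter, Finset.prod_const]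
  calc 16 ^ I.card * nc (fun ω : Fin J → Ω => ¬ F (pre φ R ω J))
      ≤ 16 ^ I.card * ∏ i, nc (fun y : Ω => ¬ F ((R y).map (φ i))) :=
        Nat.mul_le_mul_left _ h1
    _ = ∏ i : Fin J, ((if i ∈ I then 16 else 1) * nc (fun y : Ω => ¬ F ((R y).map (φ i)))) := by
        rw [Finset.prod_mul_distrib, h2]
    _ ≤ ∏ i : Fin J, ((if i ∈ I then 13 else 1) * Fintype.card Ω) := by
        refine Finset.prod_le_prod' fun i _ => ?_
        by_cases hi : i ∈ I
        · rw [if_pos hi, if_pos hi]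
          exact line_le hε BL hF (φ i) (hI i hi)
        · rw [if_neg hi, if_neg hi]
          exact Nat.mul_le_mul_left _ (nc_le_card _)
    _ = 13 ^ I.card * Fintype.card Ω ^ J := by
        rw [Finset.prod_mul_distrib, h3, Finset.prod_const, Finset.card_univ, Fintype.card_fin]

/-- Many blocks contain many accepted planted graphs. -/
theorem exists_good {F : SimpleGraph (Fin n) → Prop}
    (h : Fintype.card (Fin J × P) <
      2 * nc (fun z : Fin J × P => F ((cq (A z.2)).map (φ z.1)))) :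
    ∃ I : Finset (Fin J), J < 3 * I.card ∧
      ∀ i ∈ I, Fintype.card P ≤ 4 * nc (fun p => F ((cq (A p)).map (φ i))) := by
  classical
  refine ⟨univ.filter fun i => Fintype.card P ≤ 4 * nc (fun p => F ((cq (A p)).map (φ i))), ?_,
    fun i hi => (Finset.mem_filter.1 hi).2⟩
  set I : Finset (Fin J) :=
    univ.filter fun i => Fintype.card P ≤ 4 * nc (fun p => F ((cq (A p)).map (φ i))) with hI
  rw [nc_prod fun (i : Fin J) (p : P) => F ((cq (A p)).map (φ i)), Fintype.card_prod,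
    Fintype.card_fin] at h
  have h1 : ∀ i : Fin J, 4 * nc (fun p => F ((cq (A p)).map (φ i))) ≤
      Fintype.card P + (if i ∈ I then 3 * Fintype.card P else 0) := by
    intro i
    by_cases hi : i ∈ I
    · rw [if_pos hi]
      have := nc_le_card fun p => F ((cq (A p)).map (φ i))
      omega
    · rw [if_neg hi]
      have : ¬ Fintype.card P ≤ 4 * nc (fun p => F ((cq (A p)).map (φ i))) := fun h' =>
        hi (Finset.mem_filter.2 ⟨Finset.mem_univ _, h'⟩)
      omega
  have h2 := Finset.sum_le_sum fun (i : Fin J) (_ : i ∈ univ) => h1 i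
  rw [← Finset.mul_sum, Finset.sum_add_distrib, Finset.sum_const, Finset.card_univ,
    Fintype.card_fin, smul_eq_mul, Finset.sum_ite_mem, Finset.univ_inter, Finset.sum_const,
    smul_eq_mul] at h2
  by_contra hcon
  push Not at hcon
  have h3 : 3 * I.card * Fintype.card P ≤ J * Fintype.card P := Nat.mul_le_mul_right _ hcon
  have h4 : I.card * (3 * Fintype.card P) = 3 * I.card * Fintype.card P := by ring
  omega

/-- The exponential growth. -/
theorem growth {g c : ℕ} (h : 16 ^ g ≤ 2 ^ c * 13 ^ g) : g ≤ 4 * c := by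
  by_contra hcon
  push Not at hcon
  obtain ⟨d, rfl⟩ : ∃ d, g = 4 * c + 1 + d := ⟨g - (4 * c + 1), by omega⟩
  have h1 : 2 ^ c * 13 ^ (4 * c) ≤ 16 ^ (4 * c) := by
    rw [pow_mul, pow_mul, ← mul_pow]
    exact Nat.pow_le_pow_left (by norm_num) c
  have h2 : 13 ^ (1 + d) < 16 ^ (1 + d) := Nat.pow_lt_pow_left (by norm_num) (by omega)
  have h3 : 2 ^ c * 13 ^ (4 * c + 1 + d) < 16 ^ (4 * c + 1 + d) := by
    rw [add_assoc, pow_add 13, pow_add 16]
    calc 2 ^ c * (13 ^ (4 * c) * 13 ^ (1 + d)) = 2 ^ c * 13 ^ (4 * c) * 13 ^ (1 + d) := by ring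
      _ ≤ 16 ^ (4 * c) * 13 ^ (1 + d) := Nat.mul_le_mul_right _ h1
      _ < 16 ^ (4 * c) * 16 ^ (1 + d) := Nat.mul_lt_mul_of_pos_left h2 (by positivity)
  omega

/-- **Counting.** If half of the unions of random graphs have to be rejected by one of `M₂`
monotone functions which accept many planted cliques then `M₂` is exponential in the number of
blocks. -/
theorem count_bound {s : ℕ} {ε : ℝ} (hε : 64 * ε ≤ 1)
    (BL : ∀ F : SimpleGraph V → Prop, MonoSize s F →
      (nc (fun x : P × Ω => F (cq (A x.1)) ∧ ¬ F (R x.2)) : ℝ) ≤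
        Fintype.card P * nc (fun ω => F (R ω)) + ε * (Fintype.card P * Fintype.card Ω))
    {ι : Type} [Fintype ι] {b : ℕ} (hι : Fintype.card ι ≤ 2 ^ b)
    (F : ι → SimpleGraph (Fin n) → Prop) (hF : ∀ j, MonoSize s (F j)) [Nonempty P] [Nonempty Ω]
    (hpos : Fintype.card (Fin J × P) <
      2 * nc (fun z : Fin J × P => ∀ j, F j ((cq (A z.2)).map (φ z.1))))
    (good : SimpleGraph (Fin n) → Prop) (hneg : ∀ x, good x → ∃ j, ¬ F j x)
    (hgood : Fintype.card (Fin J → Ω) ≤
      2 * nc (fun ω : Fin J → Ω => good (pre φ R ω J))) :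
    J ≤ 12 * (b + 1) := by
  classical
  obtain ⟨I, hI1, hI2⟩ := exists_good (F := fun x => ∀ j, F j x) hpos
  have h1 : ∀ j, 16 ^ I.card * nc (fun ω : Fin J → Ω => ¬ F j (pre φ R ω J)) ≤
      13 ^ I.card * Fintype.card Ω ^ J := fun j =>
    lines_le hε BL (hF j) I fun i hi => (hI2 i hi).trans (Nat.mul_le_mul_left _
      (nc_mono fun p hp => hp j))
  have h2 : nc (fun ω : Fin J → Ω => good (pre φ R ω J)) ≤
      ∑ j : ι, nc (fun ω : Fin J → Ω => ¬ F j (pre φ R ω J)) := by
    refine le_trans (nc_mono fun ω hω => ?_) (nc_bex_le (univ : Finset ι)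
      fun j (ω : Fin J → Ω) => ¬ F j (pre φ R ω J))
    obtain ⟨j, hj⟩ := hneg _ hω
    exact ⟨j, Finset.mem_univ _, hj⟩
  have h3 : 16 ^ I.card * nc (fun ω : Fin J → Ω => good (pre φ R ω J)) ≤
      2 ^ b * (13 ^ I.card * Fintype.card Ω ^ J) := by
    calc 16 ^ I.card * nc (fun ω : Fin J → Ω => good (pre φ R ω J))
        ≤ 16 ^ I.card * ∑ j : ι, nc (fun ω : Fin J → Ω => ¬ F j (pre φ R ω J)) :=
          Nat.mul_le_mul_left _ h2
      _ = ∑ j : ι, 16 ^ I.card * nc (fun ω : Fin J → Ω => ¬ F j (pre φ R ω J)) :=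
          Finset.mul_sum _ _ _
      _ ≤ ∑ _j : ι, 13 ^ I.card * Fintype.card Ω ^ J := Finset.sum_le_sum fun j _ => h1 j
      _ = Fintype.card ι * (13 ^ I.card * Fintype.card Ω ^ J) := by
          rw [Finset.sum_const, Finset.card_univ, smul_eq_mul]
      _ ≤ _ := Nat.mul_le_mul_right _ hι
  rw [Fintype.card_fun, Fintype.card_fin] at hgood
  have hΩ : 0 < Fintype.card Ω ^ J := by
    have : 0 < Fintype.card Ω := Fintype.card_pos
    positivity
  have h4 : 16 ^ I.card ≤ 2 ^ (b + 1) * 13 ^ I.card := by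
    refine Nat.le_of_mul_le_mul_right ?_ hΩ
    calc 16 ^ I.card * Fintype.card Ω ^ J
        ≤ 16 ^ I.card * (2 * nc (fun ω : Fin J → Ω => good (pre φ R ω J))) :=
          Nat.mul_le_mul_left _ hgood
      _ = 2 * (16 ^ I.card * nc (fun ω : Fin J → Ω => good (pre φ R ω J))) := by ring
      _ ≤ 2 * (2 ^ b * (13 ^ I.card * Fintype.card Ω ^ J)) := Nat.mul_le_mul_left _ h3
      _ = 2 ^ (b + 1) * 13 ^ I.card * Fintype.card Ω ^ J := by
          rw [pow_succ]
          ring
  have h5 := growth h4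
  omega

end

end Pool.Agent.H27.CN
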