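import Mathlib

/-!
Monotone circuits on graphs and quantifiers over bits.
-/

namespace Pool.Agent.H27.CN

/-- A monotone circuit with `s` gates on graphs with vertex set `Fin n`, in topological order:
gate `i` reads the earlier gates in `ins i` and computes the property `fn i` of the input graph.
Each gate tests whether two fixed vertices are adjacent, or is the AND or the OR of the gates it
reads. -/
structure MonotoneCircuit (n s : ℕ) where
  /-- the property computed by a gate -/
  fn : Fin s → SimpleGraph (Fin n) → Prop
  /-- the gates read by a gate -/
  ins : Fin s → Finset (Fin s)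
  lt : ∀ i, ∀ j ∈ ins i, j < i
  gate : ∀ i,
    (∃ u v, ∀ G, fn i G ↔ G.Adj u v) ∨
    (∀ G, fn i G ↔ ∀ j ∈ ins i, fn j G) ∨
    (∀ G, fn i G ↔ ∃ j ∈ ins i, fn j G)

/-- `Quantified q Q f` is the statement `Q₀ y₀ Q₁ y₁ ... f y` about the bits `y`, where `Q i` is
an existential quantifier if it is true and a universal quantifier if it is false. -/
def Quantified : (q : ℕ) → (Fin q → Bool) → ((Fin q → Bool) → Prop) → Prop
  | 0, _, f => f Fin.elim0
  | q + 1, Q, f =>
    if Q 0 then ∃ b, Quantified q (fun i => Q i.succ) (fun y => f (Fin.cons b y))
    else ∀ b, Quantified q (fun i => Q i.succ) (fun y => f (Fin.cons b y))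

/-- The number of universal quantifiers, where a universal quantifier behind `e` existential
quantifiers counts `2 ^ e` times (this is the number of bits of a strategy of the universal
player). -/
def weight {q : ℕ} (Q : Fin q → Bool) : ℕ :=
  ∑ i ∈ Finset.univ.filter (fun i => Q i = false),
    2 ^ (Finset.univ.filter fun j => j < i ∧ Q j = true).card

end Pool.Agent.H27.CN
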