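import Pool.Agent.H25.NM.Mono
import Pool.Agent.H25.NM.Planted

/-!
Joins of graphs on `n₁` vertices, together with universal vertices.
-/

namespace Pool.Agent.H27.CN

open Finset

section

variable {B n₁ u : ℕ}

/-- The join of the graphs `X b` and of `u` universal vertices. -/
def jn (X : Fin B → SimpleGraph (Fin n₁)) : SimpleGraph ((Fin B × Fin n₁) ⊕ Fin u) where
  Adj x y := x ≠ y ∧ ∀ b c d, x = Sum.inl (b, c) → y = Sum.inl (b, d) → (X b).Adj c d
  symm := ⟨fun _ _ h => ⟨h.1.symm, fun b c d hc hd => (h.2 b d c hd hc).symm⟩⟩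
  loopless := ⟨fun _ h => h.1 rfl⟩

theorem jn_mono {X Y : Fin B → SimpleGraph (Fin n₁)} (h : ∀ b, X b ≤ Y b) :
    (jn X : SimpleGraph ((Fin B × Fin n₁) ⊕ Fin u)) ≤ jn Y :=
  fun _ _ hxy => ⟨hxy.1, fun b c d hc hd => h b (hxy.2 b c d hc hd)⟩

/-- The vertices of the block `b`. -/
def blk {n : ℕ} (e : ((Fin B × Fin n₁) ⊕ Fin u) ↪ Fin n) (b : Fin B) : Fin n₁ ↪ Fin n :=
  ⟨fun c => e (Sum.inl (b, c)), fun c d h => by
    have h1 := e.injective h
    rw [Sum.inl.injEq, Prod.mk.injEq] at h1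
    exact h1.2⟩

theorem jn_update {n : ℕ} (e : ((Fin B × Fin n₁) ⊕ Fin u) ↪ Fin n)
    (X : Fin B → SimpleGraph (Fin n₁)) (b : Fin B) (x : SimpleGraph (Fin n₁)) :
    (jn (Function.update X b x)).map e =
      (jn (Function.update X b ⊥)).map e ⊔ x.map (blk e b) := by
  classical
  ext p q
  rw [SimpleGraph.sup_adj, SimpleGraph.map_adj, SimpleGraph.map_adj, SimpleGraph.map_adj]
  constructor
  · rintro ⟨x', y', h, hx, hy⟩
    by_cases hb : ∃ c d, x' = Sum.inl (b, c) ∧ y' = Sum.inl (b, d)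
    · obtain ⟨c, d, rfl, rfl⟩ := hb
      right
      have h1 := h.2 b c d rfl rfl
      rw [Function.update_self] at h1
      exact ⟨c, d, h1, hx, hy⟩
    · left
      refine ⟨x', y', ⟨h.1, fun b' c d hc hd => ?_⟩, hx, hy⟩
      by_cases hbb : b' = b
      · subst hbb
        exact absurd ⟨c, d, hc, hd⟩ hb
      · have h1 := h.2 b' c d hc hd
        rw [Function.update_of_ne hbb] at h1 ⊢
        exact h1
  · rintro (⟨x', y', h, hx, hy⟩ | ⟨c, d, h, hx, hy⟩)
    · refine ⟨x', y', ⟨h.1, fun b' c d hc hd => ?_⟩, hx, hy⟩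
      have h1 := h.2 b' c d hc hd
      by_cases hbb : b' = b
      · subst hbb
        rw [Function.update_self] at h1
        exact absurd h1 (by simp)
      · rw [Function.update_of_ne hbb] at h1 ⊢
        exact h1
    · refine ⟨Sum.inl (b, c), Sum.inl (b, d), ⟨?_, fun b' c' d' hc hd => ?_⟩, hx, hy⟩
      · intro h1
        rw [Sum.inl.injEq, Prod.mk.injEq] at h1
        exact h.ne h1.2
      · rw [Sum.inl.injEq, Prod.mk.injEq] at hc hd
        obtain ⟨rfl, rfl⟩ := hc
        obtain ⟨_, rfl⟩ := hd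
        rw [Function.update_self]
        exact h

theorem card_blocks (K : Fin B → Finset (Fin n₁)) :
    ((univ : Finset (Fin B × Fin n₁)).filter fun x => x.2 ∈ K x.1).card =
      ∑ b, (K b).card := by
  classical
  rw [Finset.card_filter, Fintype.sum_prod_type]
  refine Finset.sum_congr rfl fun b _ => ?_
  rw [← Finset.card_filter]
  congr 1
  ext x
  simp

/-- Cliques in all blocks give a clique in the join. -/
theorem not_cliqueFree_jn {n k₀ : ℕ} (e : ((Fin B × Fin n₁) ⊕ Fin u) ↪ Fin n)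
    {X : Fin B → SimpleGraph (Fin n₁)} (h : ∀ b, ¬ (X b).CliqueFree k₀) :
    ¬ ((jn X).map e).CliqueFree (B * k₀ + u) := by
  classical
  have h1 : ∀ b, ∃ K : Finset (Fin n₁), (X b).IsNClique k₀ K := by
    intro b
    have := h b
    unfold SimpleGraph.CliqueFree at this
    push Not at this
    exact this
  choose K hK using h1
  intro hfree
  refine hfree ((((univ : Finset (Fin B × Fin n₁)).filter fun x => x.2 ∈ K x.1).disjSum
    (univ : Finset (Fin u))).map e) ⟨?_, ?_⟩
  · intro p hp q hq hpq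
    rw [Finset.mem_coe, Finset.mem_map] at hp hq
    obtain ⟨x, hx, rfl⟩ := hp
    obtain ⟨y, hy, rfl⟩ := hq
    rw [SimpleGraph.map_adj]
    refine ⟨x, y, ⟨fun hxy => hpq (by rw [hxy]), ?_⟩, rfl, rfl⟩
    rintro b c d rfl rfl
    rw [Finset.inl_mem_disjSum, Finset.mem_filter] at hx hy
    refine (hK b).isClique hx.2 hy.2 fun hcd => hpq ?_
    rw [show c = d from hcd]
  · rw [Finset.card_map, Finset.card_disjSum, card_blocks, Finset.card_univ, Fintype.card_fin,
      Finset.sum_congr rfl fun b _ => (hK b).card_eq, Finset.sum_const, Finset.card_univ,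
      Fintype.card_fin, smul_eq_mul]

theorem card_le_of_cliqueFree {k : ℕ} {x : SimpleGraph (Fin n₁)} {K : Finset (Fin n₁)}
    (hK : x.IsClique K) (h : x.CliqueFree (k + 1)) : K.card ≤ k := by
  by_contra hcon
  have h1 : x.IsNClique K.card K := ⟨hK, rfl⟩
  exact h1.not_cliqueFree (h.mono (by omega))

/-- One block without `k₀`-cliques, and no cliques with more than `K` elements in the others. -/
theorem cliqueFree_jn {n K k₀ t : ℕ} (hn₁ : 0 < n₁) (e : ((Fin B × Fin n₁) ⊕ Fin u) ↪ Fin n)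
    {X : Fin B → SimpleGraph (Fin n₁)} (b : Fin B)
    (hX : ∀ b', b' ≠ b → (X b').CliqueFree (K + 1))
    (hb : (X b).CliqueFree k₀) (ht : B * K + u ≤ t + K) :
    ((jn X).map e).CliqueFree (t + k₀) := by
  classical
  have hk₀ : k₀ ≠ 0 := by
    rintro rfl
    exact hb ∅ (by simp)
  have hne : Nonempty ((Fin B × Fin n₁) ⊕ Fin u) := ⟨Sum.inl (b, ⟨0, hn₁⟩)⟩
  rw [SimpleGraph.cliqueFree_map_iff]
  intro C hC
  let K' : Fin B → Finset (Fin n₁) := fun b => univ.filter fun c => Sum.inl (b, c) ∈ C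
  have hsub : C ⊆ ((univ : Finset (Fin B × Fin n₁)).filter fun x => x.2 ∈ K' x.1).disjSum
      (univ : Finset (Fin u)) := by
    intro x hx
    rcases x with ⟨b', c⟩ | c
    · rw [Finset.inl_mem_disjSum, Finset.mem_filter]
      exact ⟨Finset.mem_univ _, Finset.mem_filter.2 ⟨Finset.mem_univ _, hx⟩⟩
    · rw [Finset.inr_mem_disjSum]
      exact Finset.mem_univ _
  have hcl : ∀ b', (X b').IsClique (K' b' : Set (Fin n₁)) := by
    intro b' c hc d hd hcd
    have hc' := (Finset.mem_filter.1 (Finset.mem_coe.1 hc)).2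
    have hd' := (Finset.mem_filter.1 (Finset.mem_coe.1 hd)).2
    have h1 := hC.isClique hc' hd' fun h => hcd (by
      rw [Sum.inl.injEq, Prod.mk.injEq] at h
      exact h.2)
    exact h1.2 b' c d rfl rfl
  have h1 := Finset.card_le_card hsub
  rw [hC.card_eq, Finset.card_disjSum, card_blocks, Finset.card_univ, Fintype.card_fin] at h1
  have h2 := Finset.add_sum_erase univ (fun b' => (K' b').card) (Finset.mem_univ b)
  have h3 : ∑ b' ∈ univ.erase b, (K' b').card ≤ (B - 1) * K := by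
    refine (Finset.sum_le_card_nsmul _ _ K fun b' hb' => card_le_of_cliqueFree (hcl b')
      (hX b' (Finset.ne_of_mem_erase hb'))).trans (le_of_eq ?_)
    rw [Finset.card_erase_of_mem (Finset.mem_univ b), Finset.card_univ, Fintype.card_fin,
      smul_eq_mul]
  have h4 : (K' b).card + 1 ≤ k₀ := by
    obtain ⟨k', rfl⟩ : ∃ k', k₀ = k' + 1 := ⟨k₀ - 1, by omega⟩
    exact Nat.succ_le_succ (card_le_of_cliqueFree (hcl b) hb)
  have h5 : (B - 1) * K + K = B * K := by
    obtain ⟨B', rfl⟩ : ∃ B', B = B' + 1 := ⟨B - 1, by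
      have := b.pos
      omega⟩
    rw [Nat.add_sub_cancel]
    ring
  omega

end

end Pool.Agent.H27.CN
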