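import Pool.Agent.H25.NM.Planted
import Pool.Agent.H25.NM.Lines

/-!
Edge-disjoint blocks with a common colouring of the vertices.
-/

namespace Pool.Agent.H27.CN

open Finset
open Pool.Agent.H25.NM

/-- `q ^ 2` pairwise edge-disjoint copies of the vertex set `V` in `Fin n` and a colouring of
`Fin n` which extends a given colouring of all the copies. -/
theorem exists_lines {V κ : Type} [Fintype V] {n q : ℕ} (hq : q.Prime)
    (hV : Fintype.card V ≤ q) (hn : Fintype.card V * q ≤ n) (c₀ : V → κ) [Nonempty κ] :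
    ∃ (φ : Fin (q ^ 2) → V ↪ Fin n) (col : Fin n → κ),
      (∀ i j u v u' v', u ≠ v → φ i u = φ j u' → φ i v = φ j v' → i = j) ∧
      ∀ i v, col (φ i v) = c₀ v := by
  classical
  have : Fact q.Prime := ⟨hq⟩
  have : NeZero q := ⟨hq.ne_zero⟩
  -- coordinates
  let c : V → ZMod q := fun v => ((Fintype.equivFin V v).1 : ZMod q)
  have hc : Function.Injective c := by
    intro u v huv
    have h1 := (ZMod.natCast_eq_natCast_iff' _ _ _).1 huv
    rw [Nat.mod_eq_of_lt, Nat.mod_eq_of_lt] at h1
    · exact (Fintype.equivFin V).injective (Fin.ext h1)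
    · exact (Fintype.equivFin V v).2.trans_le hV
    · exact (Fintype.equivFin V u).2.trans_le hV
  -- embedding of the points
  obtain ⟨e⟩ : Nonempty (V × ZMod q ↪ Fin n) := by
    rw [Function.Embedding.nonempty_iff_card_le, Fintype.card_prod, ZMod.card, Fintype.card_fin]
    exact hn
  obtain ⟨b⟩ : Nonempty (Fin (q ^ 2) ≃ ZMod q × ZMod q) := by
    rw [← Fintype.card_eq]
    rw [Fintype.card_fin, Fintype.card_prod, ZMod.card]
    ring
  refine ⟨fun i => ⟨fun v => e (v, (b i).1 * c v + (b i).2), ?_⟩,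
    fun y => if h : ∃ z, e z = y then c₀ h.choose.1 else Classical.arbitrary κ, ?_, ?_⟩
  · intro u v huv
    have := e.injective huv
    exact (Prod.ext_iff.1 this).1
  · intro i j u v u' v' huv h1 h2
    have h1' := Prod.ext_iff.1 (e.injective h1)
    have h2' := Prod.ext_iff.1 (e.injective h2)
    simp only at h1' h2'
    obtain ⟨a1, a2⟩ := h1'
    obtain ⟨b1, b2⟩ := h2'
    subst a1
    subst b1
    have hne : c u - c v ≠ 0 := sub_ne_zero.2 fun h => huv (hc h)
    have h3 : ((b i).1 - (b j).1) * (c u - c v) = 0 := by linear_combination a2 - b2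
    have h4 : (b i).1 = (b j).1 := by
      rcases mul_eq_zero.1 h3 with h | h
      · exact sub_eq_zero.1 h
      · exact absurd h hne
    have h5 : (b i).2 = (b j).2 := by
      rw [h4] at a2
      exact add_left_cancel a2
    exact b.injective (Prod.ext h4 h5)
  · intro i v
    have h : ∃ z, e z = e (v, (b i).1 * c v + (b i).2) := ⟨_, rfl⟩
    show (if h : ∃ z, e z = e (v, (b i).1 * c v + (b i).2) then c₀ h.choose.1
      else Classical.arbitrary κ) = c₀ v
    rw [dif_pos h]
    have h1 := e.injective h.choose_spec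
    rw [h1]

/-- The complete multipartite graph given by a colouring. -/
def kp {n k : ℕ} (col : Fin n → Fin k) : SimpleGraph (Fin n) where
  Adj x y := col x ≠ col y
  symm := ⟨fun _ _ h => h.symm⟩
  loopless := ⟨fun _ h => h rfl⟩

theorem kp_cliqueFree {n k : ℕ} (col : Fin n → Fin k) : (kp col).CliqueFree (k + 1) := by
  have h : (kp col).Colorable k := ⟨SimpleGraph.Coloring.mk col fun h => h⟩
  exact h.cliqueFree (Nat.lt_succ_self k)

theorem planted_le_kp {k w n J : ℕ} {φ : Fin J → Fin k × Fin w ↪ Fin n} {col : Fin n → Fin k}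
    (h : ∀ i v, col (φ i v) = v.1) (z : Fin J × (Fin k → Fin w)) :
    (cq (tr z.2)).map (φ z.1) ≤ kp col := by
  intro x y hxy
  rw [SimpleGraph.map_adj] at hxy
  obtain ⟨u, v, huv, rfl, rfl⟩ := hxy
  show col _ ≠ col _
  rw [h, h]
  intro h1
  obtain ⟨h2, h3, h4⟩ := huv
  rw [mem_tr] at h3 h4
  refine h2 (Prod.ext h1 ?_)
  rw [← h3, ← h4, h1]

theorem planted_not_cliqueFree' {k w n : ℕ} (φ : Fin k × Fin w ↪ Fin n) (p : Fin k → Fin w) :
    ¬ ((cq (tr p)).map φ).CliqueFree k := by
  have h := planted_not_cliqueFree φ p ⊥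
  rwa [bot_sup_eq] at h

end Pool.Agent.H27.CN
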