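import Pool.Agent.H25.NP.Fin
import Pool.Agent.H27.CN.Join
import Pool.Agent.H27.CN.Avg
import Pool.Agent.H27.CN.Lines
import Pool.Agent.H27.CN.Count

/-!
The finite form of the bound for an existential and a universal quantifier.
-/

namespace Pool.Agent.H27.CN

open Finset
open Pool.Agent.H25.NM
open Pool.Agent.H25.NP (nz card_nz blockHyp_dense small_le nc_positions_le)

set_option linter.unusedSectionVars false

theorem eps_le {k w q s m h : ℕ}
    (he1 : 2 * (q ^ 2 * s * ((m + 1) ^ 2 * 2 ^ m)) ≤ 32 ^ (m + 1))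
    (he2 : 2 * (q ^ 2 * s * (k * w + 1) ^ m) ≤ 2 ^ h) :
    ((q ^ 2 : ℕ) : ℝ) * (s * ((m + 1) ^ 2 * 2 ^ m * (1 / 32 : ℝ) ^ (m + 1) +
      small (Fin k × Fin w) m / ((2 ^ h : ℕ) : ℝ))) ≤ 1 := by
  have hVc : Fintype.card (Fin k × Fin w) = k * w := by
    rw [Fintype.card_prod, Fintype.card_fin, Fintype.card_fin]
  set η : ℝ := (1 / 32 : ℝ) ^ (m + 1) with hη
  have g1 : ((q ^ 2 : ℕ) : ℝ) * (s * ((m + 1) ^ 2 * 2 ^ m * η)) ≤ 1 / 2 := by
    have e1 : (2 : ℝ) * ((q : ℝ) ^ 2 * s * ((m + 1) ^ 2 * 2 ^ m)) ≤ 32 ^ (m + 1) := by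
      exact_mod_cast he1
    have e2 : η * 32 ^ (m + 1) = 1 := by
      rw [hη, ← mul_pow]
      norm_num
    have e3 : (0 : ℝ) ≤ η := by
      rw [hη]
      positivity
    have e4 := mul_le_mul_of_nonneg_left e1 e3
    rw [e2] at e4
    push_cast
    linarith
  have g2 : ((q ^ 2 : ℕ) : ℝ) * (s * (small (Fin k × Fin w) m / ((2 ^ h : ℕ) : ℝ))) ≤
      1 / 2 := by
    have e1 : ((q ^ 2 : ℕ) : ℝ) * (s * (small (Fin k × Fin w) m / ((2 ^ h : ℕ) : ℝ))) =
        (2 * ((q ^ 2 : ℕ) : ℝ) * s * small (Fin k × Fin w) m) / ((2 ^ h : ℕ) : ℝ) / 2 := by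
      ring
    rw [e1]
    have e2 : (2 * ((q ^ 2 : ℕ) : ℝ) * s * small (Fin k × Fin w) m) / ((2 ^ h : ℕ) : ℝ) ≤ 1 := by
      rw [div_le_one (by positivity)]
      have e3 := small_le (Fin k × Fin w) m
      rw [hVc] at e3
      have e4 : 2 * q ^ 2 * s * small (Fin k × Fin w) m ≤ 2 ^ h := by
        refine le_trans ?_ he2
        calc 2 * q ^ 2 * s * small (Fin k × Fin w) m ≤ 2 * q ^ 2 * s * (k * w + 1) ^ m :=
              Nat.mul_le_mul_left _ e3
          _ = _ := by ring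
      exact_mod_cast e4
    linarith
  have g3 : ((q ^ 2 : ℕ) : ℝ) * (s * ((m + 1) ^ 2 * 2 ^ m * η +
      small (Fin k × Fin w) m / ((2 ^ h : ℕ) : ℝ))) =
      ((q ^ 2 : ℕ) : ℝ) * (s * ((m + 1) ^ 2 * 2 ^ m * η)) +
      ((q ^ 2 : ℕ) : ℝ) * (s * (small (Fin k × Fin w) m / ((2 ^ h : ℕ) : ℝ))) := by
    ring
  rw [g3]
  linarith

/-- Half of the unions of random graphs contain no clique. -/
theorem half_good {K' k w Q q n₁ : ℕ} [NeZero Q] (φ : Fin (q ^ 2) → Fin K' × Fin w ↪ Fin n₁)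
    (hφ : ∀ i j u v u' v', u ≠ v → φ i u = φ j u' → φ i v = φ j v' → i = j)
    (hcl : 2 * n₁ ^ k * (Q - 1) ^ (k.choose 2) ≤ Q ^ (k.choose 2)) :
    Fintype.card (Fin (q ^ 2) → (Sym2 (Fin K' × Fin w) → Fin Q)) ≤
      2 * nc (fun ω : Fin (q ^ 2) → (Sym2 (Fin K' × Fin w) → Fin Q) =>
        (pre φ (gr (nz Q)) ω (q ^ 2)).CliqueFree k) := by
  classical
  set K := Fintype.card (Fin (q ^ 2) → (Sym2 (Fin K' × Fin w) → Fin Q)) with hK
  have hbad := nc_not_cliqueFree_le φ 1 (nc_positions_le φ hφ) (nz Q) k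
  rw [← hK, Fintype.card_fin, card_nz, one_pow, one_mul] at hbad
  have hQpos : 0 < Q := Nat.pos_of_ne_zero (NeZero.ne Q)
  have hbad2 : 2 * nc (fun ω : Fin (q ^ 2) → (Sym2 (Fin K' × Fin w) → Fin Q) =>
      ¬ (pre φ (gr (nz Q)) ω (q ^ 2)).CliqueFree k) ≤ K := by
    have g2 : 0 < Q ^ (k.choose 2) := by positivity
    refine Nat.le_of_mul_le_mul_left ?_ g2
    calc Q ^ (k.choose 2) *
          (2 * nc (fun ω : Fin (q ^ 2) → (Sym2 (Fin K' × Fin w) → Fin Q) =>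
            ¬ (pre φ (gr (nz Q)) ω (q ^ 2)).CliqueFree k))
        = 2 * (nc (fun ω : Fin (q ^ 2) → (Sym2 (Fin K' × Fin w) → Fin Q) =>
            ¬ (pre φ (gr (nz Q)) ω (q ^ 2)).CliqueFree k) * Q ^ (k.choose 2)) := by
          ring
      _ ≤ 2 * (n₁.choose k * ((Q - 1) ^ (k.choose 2) * K)) := Nat.mul_le_mul_left _ hbad
      _ ≤ 2 * (n₁ ^ k * ((Q - 1) ^ (k.choose 2) * K)) :=
          Nat.mul_le_mul_left _ (Nat.mul_le_mul_right _ (Nat.choose_le_pow n₁ k))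
      _ = (2 * n₁ ^ k * (Q - 1) ^ (k.choose 2)) * K := by ring
      _ ≤ Q ^ (k.choose 2) * K := Nat.mul_le_mul_right _ hcl
  have g1 := nc_add_nc_not fun ω : Fin (q ^ 2) → (Sym2 (Fin K' × Fin w) → Fin Q) =>
    (pre φ (gr (nz Q)) ω (q ^ 2)).CliqueFree k
  rw [← hK] at g1
  omega

/-- **Finite form.** Let `∃ i, ∀ j, f i j G`, with less than `2 ^ B` values of `i` and at most
`2 ^ b` values of `j`, hold for all graphs with a clique with `B * K + u` vertices and fail for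
all graphs without a clique with `(B - 1) * K + k₀ + u` vertices. Then `b` is large. -/
theorem dense_bound {K k₀ w Q q n₁ n B u s m h b t₀ : ℕ} [NeZero Q] (hq : q.Prime)
    (hm : 2 ≤ m) (hh : 1 ≤ h) (hQ : m * m ≤ Q) (hw : 32 * (h * m) ≤ w)
    (hk : 1 ≤ K) (hV : K * w ≤ q) (hn : K * w * q ≤ n₁) (hq8 : 64 ≤ q ^ 2)
    (he1 : 2 * (q ^ 2 * s * ((m + 1) ^ 2 * 2 ^ m)) ≤ 32 ^ (m + 1))
    (he2 : 2 * (q ^ 2 * s * (K * w + 1) ^ m) ≤ 2 ^ h)
    (hcl : 2 * n₁ ^ k₀ * (Q - 1) ^ (k₀.choose 2) ≤ Q ^ (k₀.choose 2))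
    (e : ((Fin B × Fin n₁) ⊕ Fin u) ↪ Fin n) (ht₀ : B * K + u ≤ t₀ + K)
    {ι₁ ι₂ : Type} [Fintype ι₁] [Fintype ι₂]
    (f : ι₁ → ι₂ → SimpleGraph (Fin n) → Prop) (hf : ∀ i j, MonoSize s (f i j))
    (h1 : Fintype.card ι₁ < 2 ^ B) (h2 : Fintype.card ι₂ ≤ 2 ^ b)
    (hpos : ∀ G : SimpleGraph (Fin n), ¬ G.CliqueFree (B * K + u) → ∃ i, ∀ j, f i j G)
    (hneg : ∀ G : SimpleGraph (Fin n), G.CliqueFree (t₀ + k₀) → ¬ ∃ i, ∀ j, f i j G) :
    q ^ 2 ≤ 12 * (b + 1) := by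
  classical
  have hhm : 1 ≤ h * m := Nat.one_le_iff_ne_zero.2 (Nat.mul_ne_zero (by omega) (by omega))
  have hwpos : 0 < w := by omega
  have : Nonempty (Fin w) := ⟨⟨0, hwpos⟩⟩
  have : Nonempty (Fin K) := ⟨⟨0, hk⟩⟩
  have hn₁ : 0 < n₁ := by
    have : 0 < K * w * q := Nat.mul_pos (Nat.mul_pos hk hwpos) hq.pos
    omega
  have hVc : Fintype.card (Fin K × Fin w) = K * w := by
    rw [Fintype.card_prod, Fintype.card_fin, Fintype.card_fin]
  obtain ⟨φ, col, hφ, hcol⟩ := exists_lines (V := Fin K × Fin w) (n := n₁) hq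
    (by rw [hVc]; exact hV) (by rw [hVc]; exact hn) (fun v => v.1)
  have hB := blockHyp_dense (k := K) (w := w) (Q := Q) m h (by omega) hh hQ hw
  set Z := Fin (q ^ 2) × (Fin K → Fin w) with hZ
  let pl : Z → SimpleGraph (Fin n₁) := fun z => (cq (tr z.2)).map (φ z.1)
  have hpl : ∀ z, pl z ≤ kp col := planted_le_kp hcol
  -- one value of the existential quantifier
  obtain ⟨i, hi⟩ : ∃ i, Fintype.card (Fin B → Z) <
      2 ^ B * nc (fun t : Fin B → Z => ∀ j, f i j ((jn fun b => pl (t b)).map e)) := by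
    by_contra hcon
    push Not at hcon
    have g1 : Fintype.card (Fin B → Z) ≤
        ∑ i : ι₁, nc (fun t : Fin B → Z => ∀ j, f i j ((jn fun b => pl (t b)).map e)) := by
      rw [← nc_true (p := fun _ : Fin B → Z => True) fun _ => trivial]
      refine le_trans (nc_mono fun t _ => ?_) (nc_bex_le (univ : Finset ι₁)
        fun i (t : Fin B → Z) => ∀ j, f i j ((jn fun b => pl (t b)).map e))
      obtain ⟨i, hi⟩ := hpos _ (not_cliqueFree_jn e
        (X := fun b => pl (t b)) fun b => planted_not_cliqueFree' (φ (t b).1) (t b).2)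
      exact ⟨i, Finset.mem_univ _, hi⟩
    have g2 := Finset.sum_le_sum fun (i : ι₁) (_ : i ∈ univ) => hcon i
    rw [← Finset.mul_sum, Finset.sum_const, Finset.card_univ, smul_eq_mul] at g2
    have g3 : 0 < Fintype.card (Fin B → Z) := by
      have : Nonempty Z := ⟨(⟨0, by omega⟩, fun _ => ⟨0, hwpos⟩)⟩
      exact Fintype.card_pos
    have g4 := (Nat.mul_le_mul_left (2 ^ B) g1).trans g2
    exact absurd (Nat.le_of_mul_le_mul_right g4 g3) (not_le.2 h1)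
  -- one block
  obtain ⟨b₀, t, ht⟩ := exists_block pl (kp col) hpl
    (fun X => ∀ j, f i j ((jn X).map e))
    (fun X Y hXY hX j => (hf i j).mono (SimpleGraph.map_monotone _ (jn_mono hXY)) (hX j)) hi
  set X₀ : Fin B → SimpleGraph (Fin n₁) := hyb pl (kp col) t b₀.1 with hX₀
  have hX₀k : ∀ b', X₀ b' ≤ kp col := by
    intro b'
    rw [hX₀]
    unfold hyb
    by_cases h' : b'.1 < b₀.1
    · rw [if_pos h']
      exact hpl _
    · rw [if_neg h']
  have hF : ∀ j, MonoSize s fun x : SimpleGraph (Fin n₁) =>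
      f i j ((jn (Function.update X₀ b₀ x)).map e) := by
    intro j
    have g1 := (hf i j).restrict (blk e b₀) ((jn (Function.update X₀ b₀ ⊥)).map e)
    have g2 : (fun x : SimpleGraph (Fin n₁) =>
        f i j ((jn (Function.update X₀ b₀ x)).map e)) = fun x => f i j
        ((jn (Function.update X₀ b₀ ⊥)).map e ⊔ x.map (blk e b₀)) := by
      funext x
      rw [jn_update]
    rw [g2]
    exact g1
  -- the error term
  set ε : ℝ := s * ((m + 1) ^ 2 * 2 ^ m * (1 / 32 : ℝ) ^ (m + 1) +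
    small (Fin K × Fin w) m / ((2 ^ h : ℕ) : ℝ)) with hε
  have hε0 : 0 ≤ ε := by
    rw [hε]
    positivity
  have hε1 : 64 * ε ≤ 1 := by
    have g1 := eps_le (k := K) (w := w) he1 he2
    rw [← hε] at g1
    have g2 : (64 : ℝ) ≤ ((q ^ 2 : ℕ) : ℝ) := by exact_mod_cast hq8
    exact (mul_le_mul_of_nonneg_right g2 hε0).trans g1
  exact count_bound (φ := φ) (R := gr (nz Q)) (A := tr) hε1 (fun F hF => hB.main hm hF) h2
    (fun j x => f i j ((jn (Function.update X₀ b₀ x)).map e)) hF ht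
    (fun x => x.CliqueFree k₀) (fun x hx => by
      have g1 : ((jn (Function.update X₀ b₀ x)).map e).CliqueFree (t₀ + k₀) := by
        refine cliqueFree_jn hn₁ e b₀ (fun b' hbb => ?_) ?_ ht₀
        · rw [Function.update_of_ne hbb]
          exact (kp_cliqueFree col).anti (hX₀k b')
        · rw [Function.update_self]
          exact hx
      by_contra hcon
      push Not at hcon
      exact hneg _ g1 ⟨i, hcon⟩)
    (half_good φ hφ hcl)

end Pool.Agent.H27.CN
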