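import Pool.Agent.H27.CN.Defs
import Pool.Agent.H25.NP.Prog

/-!
Quantified circuits: strategies of the universal player, disjunctions of programs.
-/

namespace Pool.Agent.H27.CN

open Finset
open Pool.Agent.H25

theorem weight_succ {q : ℕ} (Q : Fin (q + 1) → Bool) :
    weight Q = if Q 0 = true then 2 * weight (fun i => Q i.succ)
      else 1 + weight (fun i => Q i.succ) := by
  have hc : ∀ i : Fin q, (univ.filter fun j : Fin (q + 1) => j < i.succ ∧ Q j = true).card =
      (univ.filter fun j : Fin q => j < i ∧ Q j.succ = true).card +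
        (if Q 0 = true then 1 else 0) := by
    intro i
    rw [Fin.card_filter_univ_succ fun j : Fin (q + 1) => j < i.succ ∧ Q j = true]
    by_cases h0 : Q 0 = true
    · rw [if_pos ⟨Fin.succ_pos i, h0⟩, if_pos h0]
      simp only [Fin.succ_lt_succ_iff]
    · rw [if_neg fun h => h0 h.2, if_neg h0, add_zero]
      simp only [Fin.succ_lt_succ_iff]
  unfold weight
  rw [Finset.sum_filter, Fin.sum_univ_succ, Finset.sum_filter]
  have e0 : (univ.filter fun j : Fin (q + 1) => j < 0 ∧ Q j = true).card = 0 := by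
    rw [Finset.card_eq_zero, Finset.filter_eq_empty_iff]
    rintro j _ ⟨h, _⟩
    exact absurd h (Fin.not_lt_zero j)
  by_cases h0 : Q 0 = true
  · rw [if_pos h0, if_neg (by simp [h0]), zero_add, Finset.mul_sum]
    refine Finset.sum_congr rfl fun i _ => ?_
    by_cases hi : Q i.succ = false
    · rw [if_pos hi, if_pos hi, hc, if_pos h0, pow_succ]
      ring
    · rw [if_neg hi, if_neg hi, mul_zero]
  · have h0' : Q 0 = false := by
      simpa using h0
    rw [if_neg h0, if_pos h0', e0, pow_zero]
    congr 1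
    refine Finset.sum_congr rfl fun i _ => ?_
    by_cases hi : Q i.succ = false
    · rw [if_pos hi, if_pos hi, hc, if_neg h0, add_zero]
    · rw [if_neg hi, if_neg hi]

/-- A statement with a quantifier prefix in the form `∀ ∃`, by means of the strategies of the
universal player. -/
theorem exists_strategies : ∀ (q : ℕ) (Q : Fin q → Bool),
    ∃ (S X : Type) (_ : Fintype S) (_ : Fintype X) (F : S → X → (Fin q → Bool)),
      Fintype.card S ≤ 2 ^ weight Q ∧
      Fintype.card X = 2 ^ (univ.filter fun i => Q i = true).card ∧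
      ∀ f : (Fin q → Bool) → Prop, Quantified q Q f ↔ ∀ σ, ∃ x, f (F σ x)
  | 0, Q => ⟨Unit, Unit, inferInstance, inferInstance, fun _ _ => Fin.elim0, by simp [weight],
      by simp, fun f => ⟨fun h _ => ⟨(), h⟩, fun h => (h ()).elim fun _ h' => h'⟩⟩
  | q + 1, Q => by
    obtain ⟨S, X, hS, hX, F, h1, h2, h3⟩ := exists_strategies q fun i => Q i.succ
    have e1 := Fin.card_filter_univ_succ fun i : Fin (q + 1) => Q i = true
    have e2 := weight_succ Q
    by_cases h0 : Q 0 = true
    · rw [if_pos h0] at e1 e2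
      refine ⟨S × S, Bool × X, inferInstance, inferInstance,
        fun σ x => Fin.cons x.1 (F (if x.1 then σ.1 else σ.2) x.2), ?_, ?_, fun f => ?_⟩
      · rw [e2, Fintype.card_prod, two_mul, pow_add]
        exact Nat.mul_le_mul h1 h1
      · rw [e1, Fintype.card_prod, Fintype.card_bool, h2, pow_succ]
        ring
      · show (if Q 0 then ∃ b, Quantified q (fun i => Q i.succ) (fun y => f (Fin.cons b y))
          else ∀ b, Quantified q (fun i => Q i.succ) (fun y => f (Fin.cons b y))) ↔ _
        rw [if_pos h0]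
        constructor
        · rintro ⟨b, hb⟩ ⟨σ₁, σ₂⟩
          obtain ⟨x, hx⟩ := (h3 _).1 hb (if b then σ₁ else σ₂)
          exact ⟨(b, x), hx⟩
        · intro h
          by_contra hcon
          push Not at hcon
          have k1 := hcon true
          have k2 := hcon false
          rw [h3] at k1 k2
          push Not at k1 k2
          obtain ⟨σ₁, hσ₁⟩ := k1
          obtain ⟨σ₂, hσ₂⟩ := k2
          obtain ⟨⟨b, x⟩, hx⟩ := h (σ₁, σ₂)
          cases b
          · exact hσ₂ x hx
          · exact hσ₁ x hx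
    · rw [if_neg h0] at e1 e2
      refine ⟨Bool × S, X, inferInstance, inferInstance,
        fun σ x => Fin.cons σ.1 (F σ.2 x), ?_, ?_, fun f => ?_⟩
      · rw [e2, Fintype.card_prod, Fintype.card_bool, pow_add, pow_one]
        exact Nat.mul_le_mul_left 2 h1
      · rw [e1, h2]
      · show (if Q 0 then ∃ b, Quantified q (fun i => Q i.succ) (fun y => f (Fin.cons b y))
          else ∀ b, Quantified q (fun i => Q i.succ) (fun y => f (Fin.cons b y))) ↔ _
        rw [if_neg h0]
        constructor
        · rintro h ⟨b, σ⟩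
          exact (h3 _).1 (h b) σ
        · intro h b
          rw [h3]
          intro σ
          exact h (b, σ)

/-- Disjunctions of monotone programs. -/
theorem monoSize_exists {V X : Type} [Fintype X] {s : ℕ} {F : X → SimpleGraph V → Prop}
    (hF : ∀ x, NM.MonoSize s (F x)) :
    NM.MonoSize (Fintype.card X * s + 1) (fun G => ∃ x, F x G) := by
  classical
  choose f hf o ho hFo using hF
  set M := Fintype.card X with hM
  let t : Fin M ≃ X := (Fintype.equivFin X).symm
  let g : ℕ → SimpleGraph V → Prop := fun a G =>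
    if h : a / s < M then f (t ⟨a / s, h⟩) (a % s) G else ∃ x, F x G
  have hg1 : ∀ (i : Fin M) (c : ℕ), c < s → g (i.1 * s + c) = f (t i) c := by
    intro i c hc
    have hdiv : (i.1 * s + c) / s = i.1 := by
      rw [mul_comm, Nat.mul_add_div (by omega), Nat.div_eq_of_lt hc, add_zero]
    have hmod : (i.1 * s + c) % s = c := by
      rw [mul_comm, Nat.mul_add_mod, Nat.mod_eq_of_lt hc]
    funext G
    show (if h : (i.1 * s + c) / s < M then f (t ⟨(i.1 * s + c) / s, h⟩) ((i.1 * s + c) % s) G
      else ∃ x, F x G) = _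
    have h : (i.1 * s + c) / s < M := by
      rw [hdiv]
      exact i.2
    rw [dif_pos h, hmod]
    have : (⟨(i.1 * s + c) / s, h⟩ : Fin M) = i := Fin.ext hdiv
    rw [this]
  have hg2 : ∀ G, g (M * s) G ↔ ∃ x, F x G := by
    intro G
    show (if h : M * s / s < M then f (t ⟨M * s / s, h⟩) (M * s % s) G
      else ∃ x, F x G) ↔ _
    by_cases hM0 : M = 0
    · rw [dif_neg (by rw [hM0]; exact Nat.not_lt_zero _)]
    · have hs : 0 < s := by
        have x : X := t ⟨0, by omega⟩
        have := ho x
        omega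
      rw [dif_neg]
      rw [Nat.mul_div_cancel _ hs]
      exact lt_irrefl _
  refine ⟨g, ?_, M * s, Nat.lt_succ_self _, fun G => (hg2 G).symm⟩
  intro a ha
  by_cases haM : a < M * s
  · have hs : 0 < s := by
      by_contra h0
      have : s = 0 := by omega
      rw [this, mul_zero] at haM
      omega
    have hdivM : a / s < M := (Nat.div_lt_iff_lt_mul hs).2 haM
    obtain ⟨i, c, hc, rfl⟩ : ∃ (i : Fin M) (c : ℕ), c < s ∧ a = i.1 * s + c :=
      ⟨⟨a / s, hdivM⟩, a % s, Nat.mod_lt _ hs, (Nat.div_add_mod' a s).symm⟩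
    rcases hf (t i) c hc with ⟨u, v, h1⟩ | h1 | ⟨j, k, hj, hk, h1⟩ | ⟨S, hS, h1⟩
    · exact Or.inl ⟨u, v, fun x => by rw [hg1 i c hc]; exact h1 x⟩
    · exact Or.inr (Or.inl fun x => by rw [hg1 i c hc]; exact h1 x)
    · refine Or.inr (Or.inr (Or.inl ⟨i.1 * s + j, i.1 * s + k, by omega, by omega, fun x => ?_⟩))
      rw [hg1 i c hc, hg1 i j (hj.trans hc), hg1 i k (hk.trans hc)]
      exact h1 x
    · refine Or.inr (Or.inr (Or.inr ⟨S.image fun j => i.1 * s + j, ?_, fun x => ?_⟩))
      · intro j' hj'
        obtain ⟨j, hj, rfl⟩ := Finset.mem_image.1 hj'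
        have := hS j hj
        omega
      · rw [hg1 i c hc, h1]
        constructor
        · rintro ⟨j, hj, hx⟩
          refine ⟨i.1 * s + j, Finset.mem_image_of_mem _ hj, ?_⟩
          rw [hg1 i j ((hS j hj).trans hc)]
          exact hx
        · rintro ⟨j', hj', hx⟩
          obtain ⟨j, hj, rfl⟩ := Finset.mem_image.1 hj'
          rw [hg1 i j ((hS j hj).trans hc)] at hx
          exact ⟨j, hj, hx⟩
  · have haeq : a = M * s := by omega
    subst haeq
    refine Or.inr (Or.inr (Or.inr
      ⟨(univ : Finset (Fin M)).image fun i => i.1 * s + o (t i), ?_, fun x => ?_⟩))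
    · intro j' hj'
      obtain ⟨i, _, rfl⟩ := Finset.mem_image.1 hj'
      have h1 := ho (t i)
      have h2 : (i.1 + 1) * s ≤ M * s := Nat.mul_le_mul_right _ i.2
      have h3 : (i.1 + 1) * s = i.1 * s + s := by ring
      show i.1 * s + o (t i) < M * s
      omega
    · rw [hg2]
      constructor
      · rintro ⟨y, hy⟩
        refine ⟨(t.symm y).1 * s + o (t (t.symm y)), Finset.mem_image_of_mem _
          (Finset.mem_univ (t.symm y)), ?_⟩
        rw [hg1 _ _ (ho _), Equiv.apply_symm_apply]
        exact (hFo y x).1 hy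
      · rintro ⟨j', hj', hx⟩
        obtain ⟨i, _, rfl⟩ := Finset.mem_image.1 hj'
        rw [hg1 _ _ (ho _)] at hx
        exact ⟨t i, (hFo _ _).2 hx⟩

/-- Monotone circuits are monotone programs. -/
theorem MonotoneCircuit.monoSize {n s : ℕ} (C : MonotoneCircuit n s) (o : Fin s) :
    NM.MonoSize (s * (s + 1)) (C.fn o) := by
  classical
  let f : ℕ → Finset (Sym2 (Fin n)) → Prop := fun i E =>
    if h : i < s then C.fn ⟨i, h⟩ (SimpleGraph.fromEdgeSet (E : Set (Sym2 (Fin n)))) else False
  have hfn : ∀ (i : Fin s) E, f i.1 E ↔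
      C.fn i (SimpleGraph.fromEdgeSet (E : Set (Sym2 (Fin n)))) := by
    intro i E
    show (if h : i.1 < s then C.fn ⟨i.1, h⟩
      (SimpleGraph.fromEdgeSet (E : Set (Sym2 (Fin n)))) else False) ↔ _
    rw [dif_pos i.2]
  have hf : ∀ i < s, NS.MGate f i := by
    intro i hi
    rcases C.gate ⟨i, hi⟩ with ⟨u, v, h⟩ | h | h
    · by_cases huv : u = v
      · refine Or.inr (Or.inr ⟨∅, fun j hj => absurd hj (Finset.notMem_empty j), fun E => ?_⟩)
        rw [hfn ⟨i, hi⟩, h, huv]
        constructor
        · intro h1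
          exact absurd h1 (SimpleGraph.irrefl _)
        · rintro ⟨j, hj, _⟩
          exact absurd hj (Finset.notMem_empty j)
      · refine Or.inl ⟨s(u, v), fun E => ?_⟩
        rw [hfn ⟨i, hi⟩, h, SimpleGraph.fromEdgeSet_adj, Finset.mem_coe]
        exact ⟨fun h1 => h1.1, fun h1 => ⟨h1, huv⟩⟩
    · refine Or.inr (Or.inl ⟨(C.ins ⟨i, hi⟩).image Fin.val, ?_, fun E => ?_⟩)
      · intro j hj
        obtain ⟨j', hj', rfl⟩ := Finset.mem_image.1 hj
        exact C.lt _ _ hj'
      · rw [hfn ⟨i, hi⟩, h]
        constructor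
        · intro h1 j hj
          obtain ⟨j', hj', rfl⟩ := Finset.mem_image.1 hj
          exact (hfn j' E).2 (h1 j' hj')
        · intro h1 j hj
          exact (hfn j E).1 (h1 _ (Finset.mem_image_of_mem _ hj))
    · refine Or.inr (Or.inr ⟨(C.ins ⟨i, hi⟩).image Fin.val, ?_, fun E => ?_⟩)
      · intro j hj
        obtain ⟨j', hj', rfl⟩ := Finset.mem_image.1 hj
        exact C.lt _ _ hj'
      · rw [hfn ⟨i, hi⟩, h]
        constructor
        · rintro ⟨j, hj, h1⟩
          exact ⟨j.1, Finset.mem_image_of_mem _ hj, (hfn j E).2 h1⟩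
        · rintro ⟨j, hj, h1⟩
          obtain ⟨j', hj', rfl⟩ := Finset.mem_image.1 hj
          exact ⟨j', hj', (hfn j' E).1 h1⟩
  have h1 := NP.monoSize_of_program hf o.2
  have h2 : (fun G : SimpleGraph (Fin n) => f o.1 (NP.es G)) = C.fn o := by
    funext G
    apply propext
    rw [hfn o, NP.fromEdgeSet_es]
  rwa [h2] at h1

end Pool.Agent.H27.CN
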