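import Pool.Agent.H27.CN.Dense
import Pool.Agent.H27.CN.Quant
import Pool.Agent.H25.NP.Main

/-!
The choice of the parameters and the main theorem.
-/

namespace Pool.Agent.H27.CN

open Finset
open Pool.Agent.H25
open Pool.Agent.H25.NP (clique_count)

/-- The bound for programs. -/
theorem main_programs {n L l k K B b s : ℕ} (hL : 1 ≤ L) (hLl : L ≤ l) (hnL : n ≤ 2 ^ L)
    (hB : 1 ≤ B) (hK : 17 * l ^ 2 * L ≤ K) (hk : B * K ≤ k)
    (hn : k + 2 ^ 19 * B * K ^ 2 * l ^ 4 * L ^ 2 ≤ n) (hs : s ≤ 2 ^ (2 * l + 2))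
    {ι₁ ι₂ : Type} [Fintype ι₁] [Fintype ι₂]
    (f : ι₁ → ι₂ → SimpleGraph (Fin n) → Prop) (hf : ∀ i j, NM.MonoSize s (f i j))
    (h1 : Fintype.card ι₁ < 2 ^ B) (h2 : Fintype.card ι₂ ≤ 2 ^ b)
    (hpos : ∀ G : SimpleGraph (Fin n), ¬ G.CliqueFree k → ∃ i, ∀ j, f i j G)
    (hneg : ∀ G : SimpleGraph (Fin n), G.CliqueFree (k - K + 17 * l ^ 2 * L) →
      ¬ ∃ i, ∀ j, f i j G) :
    (n - k) ^ 2 ≤ 2 ^ 24 * B ^ 2 * K ^ 2 * l ^ 4 * L ^ 2 * (b + 1) := by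
  classical
  have hl : 1 ≤ l := hL.trans hLl
  have hl1 : 1 ≤ l ^ 2 := Nat.one_le_pow _ _ hl
  have hlL : 1 ≤ l ^ 2 * L := Nat.one_le_iff_ne_zero.2 (Nat.mul_ne_zero (by omega) (by omega))
  have hK1 : 1 ≤ K := by
    have e : 17 * l ^ 2 * L = 17 * (l ^ 2 * L) := by ring
    omega
  set v : ℕ := K * (512 * (l ^ 2 * L)) with hv
  have hv1 : 512 ≤ v := by
    calc 512 = 1 * (512 * 1) := rfl
      _ ≤ K * (512 * (l ^ 2 * L)) := Nat.mul_le_mul hK1 (Nat.mul_le_mul_left _ hlL)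
  have hn' : k + 2 * (B * v ^ 2) ≤ n := by
    refine le_trans (le_of_eq ?_) hn
    rw [hv]
    ring
  have hv2 : v * 512 ≤ v ^ 2 := by
    rw [sq]
    exact Nat.mul_le_mul_left _ hv1
  have hBv2 : 1 * v ^ 2 ≤ B * v ^ 2 := Nat.mul_le_mul_right _ hB
  have hl2 : 2 ≤ l := by
    by_contra hcon'
    have h1 : L = 1 := by omega
    rw [h1] at hnL
    norm_num at hnL
    omega
  -- parameters
  set k₀ : ℕ := 17 * l ^ 2 * L with hk₀
  have hKk : K ≤ k := by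
    have : 1 * K ≤ B * K := Nat.mul_le_mul_right _ hB
    omega
  set u : ℕ := k - B * K with hu
  have hku : k = B * K + u := by omega
  set n₀ : ℕ := n - u with hn₀
  set n₁ : ℕ := n₀ / B with hn₁
  have hBn₁ : B * n₁ ≤ n₀ := Nat.mul_div_le _ _
  have hBn₁' : n₀ < B * (n₁ + 1) := Nat.lt_mul_div_succ _ (by omega)
  set N : ℕ := n₁ / v with hN
  have hvN : v * N ≤ n₁ := Nat.mul_div_le _ _
  have hvN2 : n₁ < v * (N + 1) := Nat.lt_mul_div_succ _ (by omega)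
  have hnN : n - k < B * (v * (N + 1)) := by
    have g1 : B * (n₁ + 1) ≤ B * (v * (N + 1)) := Nat.mul_le_mul_left _ hvN2
    omega
  have hBv : B * v ≤ B * v ^ 2 := Nat.mul_le_mul_left _ (by omega)
  have hNpos : N / 2 ≠ 0 := by
    intro h0
    have g1 : N ≤ 1 := by omega
    have g2 : B * (v * (N + 1)) ≤ B * (v * 2) :=
      Nat.mul_le_mul_left _ (Nat.mul_le_mul_left _ (by omega))
    have g3 : B * (v * 2) = 2 * (B * v) := by ring
    omega
  obtain ⟨q, hq, hq1, hq2⟩ := Nat.exists_prime_lt_and_le_two_mul (N / 2) hNpos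
  have hqN : q ≤ N := by omega
  have hvq : v * q ≤ n₁ := (Nat.mul_le_mul_left _ hqN).trans hvN
  have hqv : n - k ≤ 2 * (B * (q * v)) := by
    have g1 : B * (v * (N + 1)) ≤ B * (v * (2 * q)) :=
      Nat.mul_le_mul_left _ (Nat.mul_le_mul_left _ (by omega))
    have g2 : B * (v * (2 * q)) = 2 * (B * (q * v)) := by ring
    omega
  have hvleq : v ≤ q := by
    by_contra hcon'
    push Not at hcon'
    have g1 : B * ((q + 1) * v) ≤ B * (v * v) :=
      Nat.mul_le_mul_left _ (Nat.mul_le_mul_right _ hcon')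
    have g2 : v ^ 2 = v * v := sq v
    have g3 : B * ((q + 1) * v) = B * (q * v) + B * v := by ring
    have g4 : 1 * v ≤ B * v := Nat.mul_le_mul_right _ hB
    rw [← g2] at g1
    omega
  have hn₁n : n₁ ≤ n := by
    have g1 : 1 * n₁ ≤ B * n₁ := Nat.mul_le_mul_right _ hB
    omega
  have hqn : q ≤ 2 ^ L := by
    have : 1 * q ≤ v * q := Nat.mul_le_mul_right _ (by omega)
    omega
  have hq2l : q ^ 2 ≤ 2 ^ (2 * L) := by
    calc q ^ 2 ≤ (2 ^ L) ^ 2 := Nat.pow_le_pow_left hqn 2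
      _ = 2 ^ (2 * L) := by rw [← pow_mul, mul_comm]
  have hv1l : v + 1 ≤ 2 ^ L := by
    have g1 : v * 2 ≤ v * q := Nat.mul_le_mul_left _ hq.two_le
    omega
  have hq8 : 64 ≤ q ^ 2 := by
    calc 64 = 8 ^ 2 := rfl
      _ ≤ q ^ 2 := Nat.pow_le_pow_left (by omega) 2
  -- the hypotheses
  have : NeZero (4 * l ^ 2) := ⟨by omega⟩
  have hm1 : 2 * l + 1 ≤ 2 ^ (2 * l) := Nat.lt_two_pow_self
  have he1 : 2 * (q ^ 2 * s * ((2 * l + 1) ^ 2 * 2 ^ (2 * l))) ≤ 32 ^ (2 * l + 1) := by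
    have hq2l' : q ^ 2 ≤ 2 ^ (2 * l) :=
      hq2l.trans (Nat.pow_le_pow_right (by norm_num) (by omega))
    calc 2 * (q ^ 2 * s * ((2 * l + 1) ^ 2 * 2 ^ (2 * l)))
        ≤ 2 * (2 ^ (2 * l) * 2 ^ (2 * l + 2) * ((2 ^ (2 * l)) ^ 2 * 2 ^ (2 * l))) := by
          refine Nat.mul_le_mul_left _ (Nat.mul_le_mul (Nat.mul_le_mul hq2l' hs)
            (Nat.mul_le_mul_right _ (Nat.pow_le_pow_left hm1 2)))
      _ = 8 * (2 ^ (2 * l)) ^ 5 := by
          rw [pow_add 2 (2 * l)]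
          ring
      _ = 8 * 32 ^ (2 * l) := by
          rw [← pow_mul, mul_comm (2 * l) 5, pow_mul]
          norm_num
      _ ≤ 32 ^ (2 * l + 1) := by
          rw [pow_succ]
          have : 0 < 32 ^ (2 * l) := by positivity
          omega
  have he2 : 2 * (q ^ 2 * s * (K * (512 * (l ^ 2 * L)) + 1) ^ (2 * l)) ≤
      2 ^ (8 * (l * L)) := by
    rw [← hv]
    calc 2 * (q ^ 2 * s * (v + 1) ^ (2 * l))
        ≤ 2 * (2 ^ (2 * L) * 2 ^ (2 * l + 2) * (2 ^ L) ^ (2 * l)) := by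
          refine Nat.mul_le_mul_left _ (Nat.mul_le_mul (Nat.mul_le_mul hq2l hs)
            (Nat.pow_le_pow_left hv1l _))
      _ = 2 ^ (1 + (2 * L + (2 * l + 2)) + L * (2 * l)) := by
          rw [pow_add, pow_add, pow_add, ← pow_mul]
          ring
      _ ≤ 2 ^ (8 * (l * L)) := by
          refine Nat.pow_le_pow_right (by norm_num) ?_
          nlinarith [Nat.mul_le_mul hl2 hL, Nat.mul_le_mul_right L hl2, Nat.mul_le_mul_left l hL]
  have hcl : 2 * n₁ ^ k₀ * (4 * l ^ 2 - 1) ^ (k₀.choose 2) ≤ (4 * l ^ 2) ^ (k₀.choose 2) := by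
    refine clique_count (l := L) (by omega) (hn₁n.trans hnL) ?_
    rw [hk₀]
    have g1 : 2 * (4 * l ^ 2) * (L + 1) + 1 = 8 * (l ^ 2 * L) + 8 * l ^ 2 + 1 := by ring
    have g2 : l ^ 2 * 1 ≤ l ^ 2 * L := Nat.mul_le_mul_left _ hL
    have g3 : 17 * l ^ 2 * L = 17 * (l ^ 2 * L) := by ring
    omega
  obtain ⟨e⟩ : Nonempty (((Fin B × Fin n₁) ⊕ Fin u) ↪ Fin n) := by
    rw [Function.Embedding.nonempty_iff_card_le, Fintype.card_sum, Fintype.card_prod,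
      Fintype.card_fin, Fintype.card_fin, Fintype.card_fin, Fintype.card_fin]
    omega
  have hfin : q ^ 2 ≤ 12 * (b + 1) := by
    refine dense_bound (K := K) (k₀ := k₀) (w := 512 * (l ^ 2 * L)) (Q := 4 * l ^ 2) (q := q)
      (n₁ := n₁) (s := s) (m := 2 * l) (h := 8 * (l * L)) (t₀ := k - K) hq (by omega) ?_ ?_ ?_
      hK1 hvleq hvq hq8 he1 he2 hcl e (by omega) f hf h1 h2 ?_ hneg
    · have : 1 * 1 ≤ l * L := Nat.mul_le_mul hl hL
      omega
    · exact le_of_eq (by ring)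
    · exact le_of_eq (by ring)
    · rw [← hku]
      exact hpos
  -- conclusion
  calc (n - k) ^ 2 ≤ (2 * (B * (q * v))) ^ 2 := Nat.pow_le_pow_left hqv 2
    _ = 4 * B ^ 2 * v ^ 2 * q ^ 2 := by ring
    _ ≤ 4 * B ^ 2 * v ^ 2 * (12 * (b + 1)) := Nat.mul_le_mul_left _ hfin
    _ = 12582912 * (B ^ 2 * K ^ 2 * l ^ 4 * L ^ 2 * (b + 1)) := by
        rw [hv]
        ring
    _ ≤ 16777216 * (B ^ 2 * K ^ 2 * l ^ 4 * L ^ 2 * (b + 1)) :=
        Nat.mul_le_mul_right _ (by norm_num)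
    _ = 2 ^ 24 * B ^ 2 * K ^ 2 * l ^ 4 * L ^ 2 * (b + 1) := by ring

/-- **Main theorem.** -/
theorem main {n L l k K a q s : ℕ} (hL : 1 ≤ L) (hLl : L ≤ l) (hnL : n ≤ 2 ^ L)
    (hK : 17 * l ^ 2 * L ≤ K) (hk : (a + 1) * K ≤ k)
    (hn : k + 2 ^ 19 * (a + 1) * K ^ 2 * l ^ 4 * L ^ 2 ≤ n) (Q : Fin q → Bool)
    (hs : 2 ^ (univ.filter fun i => Q i = true).card * (s + 1) ≤ 2 ^ l)
    (C : (Fin a → Bool) → (Fin q → Bool) → MonotoneCircuit n s)
    (out : (Fin a → Bool) → (Fin q → Bool) → Fin s)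
    (hpos : ∀ G : SimpleGraph (Fin n), ¬ G.CliqueFree k →
      ∃ x, Quantified q Q fun y => (C x y).fn (out x y) G)
    (hneg : ∀ G : SimpleGraph (Fin n), G.CliqueFree (k - K + 17 * l ^ 2 * L) →
      ¬ ∃ x, Quantified q Q fun y => (C x y).fn (out x y) G) :
    (n - k) ^ 2 ≤ 2 ^ 24 * (a + 1) ^ 2 * K ^ 2 * l ^ 4 * L ^ 2 * (weight Q + 1) := by
  classical
  obtain ⟨S, X, hS, hX, F, h1, h2, h3⟩ := exists_strategies q Q
  have key : ∀ G : SimpleGraph (Fin n),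
      (∃ i : Fin a → Bool, ∀ σ : S, ∃ x : X, (C i (F σ x)).fn (out i (F σ x)) G) ↔
        ∃ x, Quantified q Q fun y => (C x y).fn (out x y) G := by
    intro G
    constructor
    · rintro ⟨i, hi⟩
      exact ⟨i, (h3 _).2 hi⟩
    · rintro ⟨i, hi⟩
      exact ⟨i, (h3 _).1 hi⟩
  refine main_programs (s := Fintype.card X * (s * (s + 1)) + 1) (ι₁ := Fin a → Bool) (ι₂ := S)
    hL hLl hnL (by omega) hK hk hn ?_
    (fun i σ G => ∃ x, (C i (F σ x)).fn (out i (F σ x)) G)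
    (fun i σ => monoSize_exists fun x => (C i (F σ x)).monoSize (out i (F σ x))) ?_ h1
    (fun G hG => (key G).2 (hpos G hG)) (fun G hG h => hneg G hG ((key G).1 h))
  · rw [h2]
    have h4 : s ≤ 2 ^ l := by
      have : 1 * (s + 1) ≤ 2 ^ (univ.filter fun i => Q i = true).card * (s + 1) :=
        Nat.mul_le_mul_right _ Nat.one_le_two_pow
      omega
    calc 2 ^ (univ.filter fun i => Q i = true).card * (s * (s + 1)) + 1
        = 2 ^ (univ.filter fun i => Q i = true).card * (s + 1) * s + 1 := by ring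
      _ ≤ 2 ^ l * 2 ^ l + 1 := by
          have := Nat.mul_le_mul hs h4
          omega
      _ ≤ 2 ^ (2 * l + 2) := by
          have e1 : 2 ^ (2 * l + 2) = 4 * (2 ^ l * 2 ^ l) := by
            rw [pow_add, two_mul, pow_add]
            ring
          have e2 : 0 < 2 ^ l * 2 ^ l := by positivity
          omega
  · rw [Fintype.card_fun, Fintype.card_bool, Fintype.card_fin]
    exact Nat.pow_lt_pow_right (by norm_num) (Nat.lt_succ_self a)

end Pool.Agent.H27.CN
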